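import Mathlib
import Pool.Agent.Q52.Kosz.Final

set_option autoImplicit false

/-!
# The Fitting ideal of the Koszul module of a graph
-/

namespace Pool.Agent.Results.MP_15f3fd_al.FittingIdeal

open Q52.Kosz

/-- For every connected simple graph `G` on `n ≥ 3` vertices with at least `n - 2` non-edges, the
Fitting ideal of the Koszul module of `G` is the product of the ideal generated by the monomials
of the spanning trees of `G` and of the power of the maximal ideal of exponent
`|non-edges| - n + 2`. -/
theorem result (k : Type*) [Field k] [CharZero k] (n : ℕ) (hn : 3 ≤ n)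
    (G : SimpleGraph (Fin n)) (_ : G.Connected) (hE : n - 2 ≤ Nat.card (NE G)) :
    Fitt k G = treeIdeal k G *
      Ideal.span (Set.range (MvPolynomial.X : Fin n → MvPolynomial (Fin n) k)) ^
        (Nat.card (NE G) + 2 - n) := by
  haveI : NeZero n := ⟨by omega⟩
  rw [Nat.card_eq_fintype_card] at hE ⊢
  exact fitt_eq G k (by omega) (by omega)

end Pool.Agent.Results.MP_15f3fd_al.FittingIdeal
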